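import Pool.Agent.Lib.MP_ab8df0_nt.T.B71b.R0
import Pool.Agent.Lib.MP_ab8df0_nt.T.B71b.R1
import Pool.Agent.Lib.MP_ab8df0_nt.T.B71b.R2
import Pool.Agent.Lib.MP_ab8df0_nt.T.B71b.R3
import Pool.Agent.Lib.MP_ab8df0_nt.T.B71b.R4

/-! The result of the computation. -/

set_option maxRecDepth 100000

namespace Pool.Agent.Lib.MP_ab8df0_nt.T.B71b

open Pool.Agent.Lib.MP_ab8df0_nt.B Pool.Agent.Lib.MP_ab8df0_nt.P

theorem relM {K : Type} [Field K] [NumberField K] {a : K} {pl : List (Place K)} {ph : List (K →+* ℝ)}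
    {w : List (IsDedekindDomain.HeightOneSpectrum (NumberField.RingOfIntegers K))}
    (hP : Pack K (FDQ5a.pick [1, 0]) a pl ph w) : (cval a vs 7 * (((((a) ^ 2)) ^ 2) + ((3 * ((a) ^ 2)) + 1))) = 2 := by
  have h : ((cval a vs 7 * (((((cval a vs 0) ^ 2)) ^ 2) + ((((3 : ℤ) : K) * ((cval a vs 0) ^ 2)) + ((1 : ℤ) : K)))) + (-(((2 : ℤ) : K)))) = 0 :=
    hP.rel vs (.add (.mul (.var 7) (.add (.sq (.sq (.var 0))) (.add (.mul (.num 3) (.sq (.var 0))) (.num 1)))) (.neg (.num 2))) (by decide +kernel)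
  have h0 : cval a vs 0 = a := by simp [cval, vs, ev]
  try rw [h0] at h
  try push_cast at h
  linear_combination h

theorem relN {K : Type} [Field K] [NumberField K] {a : K} {pl : List (Place K)} {ph : List (K →+* ℝ)}
    {w : List (IsDedekindDomain.HeightOneSpectrum (NumberField.RingOfIntegers K))}
    (hP : Pack K (FDQ5a.pick [1, 0]) a pl ph w) : (((a) ^ 2) - (2 * ((cval a vs 7) ^ 2))) = (-4) := by
  have h : ((((cval a vs 0) ^ 2) + (-((((2 : ℤ) : K) * ((cval a vs 7) ^ 2))))) + (-(((-4 : ℤ) : K)))) = 0 :=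
    hP.rel vs (.add (.add (.sq (.var 0)) (.neg (.mul (.num 2) (.sq (.var 7))))) (.neg (.num (-4)))) (by decide +kernel)
  have h0 : cval a vs 0 = a := by simp [cval, vs, ev]
  try rw [h0] at h
  try push_cast at h
  linear_combination h

theorem relA {K : Type} [Field K] [NumberField K] {a : K} {pl : List (Place K)} {ph : List (K →+* ℝ)}
    {w : List (IsDedekindDomain.HeightOneSpectrum (NumberField.RingOfIntegers K))}
    (hP : Pack K (FDQ5a.pick [1, 0]) a pl ph w) : cval a vs 8 = (10 * a) := by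
  have h : (cval a vs 8 + (-((((10 : ℤ) : K) * cval a vs 0)))) = 0 :=
    hP.rel vs (.add (.var 8) (.neg (.mul (.num 10) (.var 0)))) (by decide +kernel)
  have h0 : cval a vs 0 = a := by simp [cval, vs, ev]
  try rw [h0] at h
  try push_cast at h
  linear_combination h

theorem relB {K : Type} [Field K] [NumberField K] {a : K} {pl : List (Place K)} {ph : List (K →+* ℝ)}
    {w : List (IsDedekindDomain.HeightOneSpectrum (NumberField.RingOfIntegers K))}
    (hP : Pack K (FDQ5a.pick [1, 0]) a pl ph w) : cval a vs 9 = (5 * ((a) ^ 2)) := by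
  have h : (cval a vs 9 + (-((((5 : ℤ) : K) * ((cval a vs 0) ^ 2))))) = 0 :=
    hP.rel vs (.add (.var 9) (.neg (.mul (.num 5) (.sq (.var 0))))) (by decide +kernel)
  have h0 : cval a vs 0 = a := by simp [cval, vs, ev]
  try rw [h0] at h
  try push_cast at h
  linear_combination h

theorem relR {K : Type} [Field K] [NumberField K] {a : K} {pl : List (Place K)} {ph : List (K →+* ℝ)}
    {w : List (IsDedekindDomain.HeightOneSpectrum (NumberField.RingOfIntegers K))}
    (hP : Pack K (FDQ5a.pick [1, 0]) a pl ph w) : (cval a vs 20 * a) = cval a vs 7 := by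
  have h : ((cval a vs 20 * cval a vs 0) + (-(cval a vs 7))) = 0 :=
    hP.rel vs (.add (.mul (.var 20) (.var 0)) (.neg (.var 7))) (by decide +kernel)
  have h0 : cval a vs 0 = a := by simp [cval, vs, ev]
  try rw [h0] at h
  try push_cast at h
  linear_combination h

theorem relx {K : Type} [Field K] [NumberField K] {a : K} {pl : List (Place K)} {ph : List (K →+* ℝ)}
    {w : List (IsDedekindDomain.HeightOneSpectrum (NumberField.RingOfIntegers K))}
    (hP : Pack K (FDQ5a.pick [1, 0]) a pl ph w) : cval a vs 21 = (10 * (a * ((cval a vs 20) ^ 2))) := by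
  have h : (cval a vs 21 + (-((((10 : ℤ) : K) * (cval a vs 0 * ((cval a vs 20) ^ 2)))))) = 0 :=
    hP.rel vs (.add (.var 21) (.neg (.mul (.num 10) (.mul (.var 0) (.sq (.var 20)))))) (by decide +kernel)
  have h0 : cval a vs 0 = a := by simp [cval, vs, ev]
  try rw [h0] at h
  try push_cast at h
  linear_combination h

theorem core {K : Type} [Field K] [NumberField K] {a : K} {pl : List (Place K)} {ph : List (K →+* ℝ)}
    {w : List (IsDedekindDomain.HeightOneSpectrum (NumberField.RingOfIntegers K))}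
    (hP : Pack K (FDQ5a.pick [1, 0]) a pl ph w) {G : Prop} (t r x y dr dx : K)
    (hdisc : Q2 0 (t - ((0 : ℤ) : K)))
    (hdr : dr = ((-4) * ((a * (a + (2 * (t * cval a vs 7)))))⁻¹))
    (hr : r = (cval a vs 20 + (t * dr)))
    (hcls : IsSquare (((5 * ((((2 * ((r) ^ 2)) + 1)) ^ 2)) - 4) * (2 * a)))
    (hx : x = (10 * (a * ((r) ^ 2))))
    (hon : On (cval a vs 8) (cval a vs 9) x y)
    (hdx : dx = (10 * (a * ((r + cval a vs 20) * dr))))
    (hdqn : (1 * t - 0) ≠ 0) (hdq : x - cval a vs 21 = (1 * t - 0) * dx) :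
    G := by
  refine hP.cover (fr := [t, r, x, y, dr, dx]) (M := M) (cs := [[], []]) rfl auto
    (l := [(0, 5), (16, 5), (8, 4), (4, 4), (12, 4), (1, 1), (2, 2)]) (by decide) ?_ hdisc fun tt kk hq => ?_
  · exact List.forall_mem_cons.2 ⟨⟨_, r0⟩, List.forall_mem_cons.2 ⟨⟨_, r1⟩, List.forall_mem_cons.2 ⟨⟨_, r2⟩, List.forall_mem_cons.2 ⟨⟨_, r3⟩, List.forall_mem_cons.2 ⟨⟨_, r4⟩, List.forall_mem_cons.2 ⟨⟨_, r5⟩, List.forall_mem_cons.2 ⟨⟨_, r6⟩, fun _ h => absurd h List.not_mem_nil⟩⟩⟩⟩⟩⟩⟩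
  · refine List.forall_mem_cons.2 ⟨?_, List.forall_mem_cons.2 ⟨?_, List.forall_mem_cons.2 ⟨?_, List.forall_mem_cons.2 ⟨?_, List.forall_mem_cons.2 ⟨?_, List.forall_mem_cons.2 ⟨?_, List.forall_mem_cons.2 ⟨?_, List.forall_mem_cons.2 ⟨?_, fun _ h => absurd h List.not_mem_nil⟩⟩⟩⟩⟩⟩⟩⟩
    · exact hq
    · show dr = (((-4 : ℤ) : K) * ((a * (a + (((2 : ℤ) : K) * (t * cval a vs 7)))))⁻¹)
      try push_cast
      linear_combination hdr
    · show r = (cval a vs 20 + (t * dr))
      try push_cast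
      linear_combination hr
    · exact span_of_isSquare (x := (((((5 : ℤ) : K) * ((((((2 : ℤ) : K) * ((r) ^ 2)) + ((1 : ℤ) : K))) ^ 2)) + (-(((4 : ℤ) : K)))) * (((2 : ℤ) : K) * a))) ((by push_cast; ring : (((((5 : ℤ) : K) * ((((((2 : ℤ) : K) * ((r) ^ 2)) + ((1 : ℤ) : K))) ^ 2)) + (-(((4 : ℤ) : K)))) * (((2 : ℤ) : K) * a)) = (((5 * ((((2 * ((r) ^ 2)) + 1)) ^ 2)) - 4) * (2 * a))) ▸ hcls)
    · show x = (((10 : ℤ) : K) * (a * ((r) ^ 2)))
      try push_cast
      linear_combination hx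
    · exact hon
    · show dx = (((10 : ℤ) : K) * (a * ((r + cval a vs 20) * dr)))
      try push_cast
      linear_combination hdx
    · show (((1 : ℤ) : K) * t - ((0 : ℤ) : K)) ≠ 0 ∧ x - cval a vs 21 = (((1 : ℤ) : K) * t - ((0 : ℤ) : K)) * dx
      try push_cast
      exact ⟨by simpa using hdqn, by linear_combination hdq⟩

end Pool.Agent.Lib.MP_ab8df0_nt.T.B71b
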