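import Pool.Agent.Lib.MP_ab8df0_nt.B.Auto2
import Pool.Agent.Lib.MP_ab8df0_nt.P.Q5aD

/-! Constants and hypotheses. -/

set_option maxRecDepth 100000

namespace Pool.Agent.Lib.MP_ab8df0_nt.T.B71b

open Pool.Agent.Lib.MP_ab8df0_nt.B Pool.Agent.Lib.MP_ab8df0_nt.P

def vs : Cs := [([0, 1], 1), ([], 1), ([], 1), ([], 1), ([], 1), ([], 1), ([], 1), 
  ([2, 1, 4, 0, 1], 2),
  ([0, 10], 1),
  ([0, 0, 5], 1),
  ([0, -20], 1),
  ([0, 0, 80], 1),
  ([-1, 1, 1], 1),
  ([0, 1], 1),
  ([0, -1, 1, 0, 1], 1),
  ([-1], 1),
  ([2], 1),
  ([1, 0, 1], 1),
  ([1, -1, -1], 1),
  ([0, 1, -1, 0, -1], 1),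
  ([6, 4, 5, 1, 1], 2),
  ([50, 5, 50, 0, 10], 1),
  ([380, 100, 320, 20, 60], 1),
  ([-7, 22, 1, 6, 1], 1),
  ([-1, 6, -25, 6, -9], 1),
  ([0, 10, -25, 0, -5], 2),
  ([20, 0, -195, 5, -35], 4),
  ([470638298, 567628945, -1964143742, 530570888, -545099174], 1310222809),
  ([124079248265836, -314484451365912, 236291492127384, -107555247749468, 43062190902896], 47426135017373),
  ([4672581330, -11766244859, -2984993614, -2278285568, -1662489462], 2104148641),
  ([-222064465456124, 275429279305668, 991719764215104, -135252832360388, 309107970083196], 96519402311311),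
  ([-7248321100085117340526, 9107785788043119122373, 57477536530225019566962, 3712619664348399919360, 13524835940644731890122], 90675500075926074864801),
  ([13961839982858726106905386387881596, -72124698544457085677748840069427572, 62560881990558473476475403816702144, -29460707055363509286122007413950748, 18786306973676860340633030660470516], 27304544698110642280157210658344049)]

def c0 : EC := ⟨8, 9, 10, 11, [12, 13, 14, 15, 16, 17], [18, 13, 19, 16, 17]⟩

def M (t0 : ℤ) (k0 : ℕ) : List Hyp := [
  .disc 1 t0 k0,
  .eq 5 (.mul (.num (-4)) (.inv (.mul (.var 0) (.add (.var 0) (.mul (.num 2) (.mul (.var 1) (.var 7))))))),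
  .eq 2 (.add (.var 20) (.mul (.var 1) (.var 5))),
  .cls (.mul (.add (.mul (.num 5) (.sq (.add (.mul (.num 2) (.sq (.var 2))) (.num 1)))) (.neg (.num 4))) (.mul (.num 2) (.var 0))) [],
  .eq 3 (.mul (.num 10) (.mul (.var 0) (.sq (.var 2)))),
  .on c0 false 3 4,
  .eq 6 (.mul (.num 10) (.mul (.var 0) (.mul (.add (.var 2) (.var 20)) (.var 5)))),
  .dq 3 21 1 0 1 6]

def k0 : Cut := ⟨[], [], [], [[false, false, false, false, true, false], [false, true, false, false, false, false], [false, true, false, false, false, true], [true, false, false, false, false, false], [false, false, true, false, false, false], [false, false, false, true, false, false]], [[false, false, false, true, false, false], [false, true, false, false, false, false], [false, false, false, false, true, false], [false, false, false, false, false, true], [true, false, false, false, false, false], [false, true, true, false, false, false]]⟩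

def k1 : Cut := ⟨[0], [], [[true, false, false, false, false, false]], [[true, false, false, false, true, false], [false, true, false, false, false, false], [true, true, false, false, false, true], [false, false, true, false, false, false], [false, false, false, true, false, false]], [[true, false, false, false, false, false], [false, false, true, false, false, false], [false, false, false, false, true, false], [false, false, false, false, false, true], [true, true, false, false, false, false], [true, false, true, true, false, false]]⟩

def A : List AH := [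
  .ec c0 6 ([25, 10, 25, 2, 5], 20) ([25, 10, 25, 2, 5], 320) k0 k1,
  .on c0 false 21 22,
  .on c0 true 23 24,
  .on c0 true 25 26,
  .on c0 false 27 28,
  .on c0 false 29 30,
  .on c0 false 31 32]

theorem auto : (baseOk 6 vs && A.all (AH.ok (FDQ5a.pick [1, 0]) 6 vs)) = true := by decide +kernel

end Pool.Agent.Lib.MP_ab8df0_nt.T.B71b
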